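import Mathlib
import Pool.Agent.H357R2.SI.PairFinal
import Pool.Agent.H692R2.USS.T1

set_option autoImplicit false

/-! Reciprocal differences of finite sets of primes. -/

namespace Pool.Agent.V11294.RD

open Finset

/-- the number of elements of `s` in `(p, p + 2^k]` -/
def U (s : Finset ℕ) (p k : ℕ) : ℕ := (s.filter (fun q => p < q ∧ q ≤ p + 2 ^ k)).card

lemma U_bt {s : Finset ℕ} (hs : ∀ p ∈ s, p.Prime) (p k : ℕ) (hk : 1 ≤ k) :
    (U s p k : ℝ) ≤ 44 * 2 ^ k / k := by
  have h2 : 2 ≤ 2 ^ k := by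
    calc 2 = 2 ^ 1 := by norm_num
      _ ≤ 2 ^ k := Nat.pow_le_pow_right (by norm_num) hk
  have h1 := Pool.Agent.H692R2.USS.t1_brun_titchmarsh (p + 1) 1 (2 ^ k) h2 le_rfl
  have h3 : U s p k ≤ ((range (2 ^ k)).filter (fun j => (p + 1 + j * 1).Prime)).card := by
    unfold U
    apply card_le_card_of_injOn (fun q => q - (p + 1))
    · intro q hq
      rw [mem_coe, mem_filter] at hq
      rw [mem_coe, mem_filter, mem_range]
      constructor
      · show q - (p + 1) < 2 ^ k
        omega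
      · show (p + 1 + (q - (p + 1)) * 1).Prime
        have e : p + 1 + (q - (p + 1)) * 1 = q := by omega
        rw [e]; exact hs q hq.1
    · intro q hq q' hq' h
      rw [mem_coe, mem_filter] at hq hq'
      simp only at h
      omega
  have h4 : (U s p k : ℝ) ≤ 22 * (((1 : ℕ) : ℝ) / Nat.totient 1) * ((2 ^ k : ℕ) : ℝ) /
      Real.log ((2 ^ k : ℕ) : ℝ) := by
    refine le_trans ?_ h1
    exact_mod_cast h3
  refine h4.trans ?_
  have hkR : (0 : ℝ) < k := by exact_mod_cast hk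
  have hlog : (1 : ℝ) / 2 < Real.log 2 := by
    have := Real.log_two_gt_d9
    linarith
  push_cast
  rw [Real.log_pow, Nat.totient_one]
  norm_num
  rw [div_le_div_iff₀ (by positivity) hkR]
  have : (22 : ℝ) * 2 ^ k * k ≤ 44 * 2 ^ k * (k * (1 / 2)) := by
    apply le_of_eq; ring
  refine this.trans ?_
  gcongr

lemma pair_total : ∃ C : ℝ, 0 < C ∧ ∀ s : Finset ℕ, (∀ p ∈ s, p.Prime) → ∀ a K k : ℕ, 1 ≤ K →
    ∑ p ∈ s.filter (fun p => a ≤ p ∧ p ≤ a + 2 * 2 ^ K), (U s p k : ℝ) ≤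
      C * 2 ^ k * 2 ^ K / (K : ℝ) ^ 2 := by
  classical
  obtain ⟨C1, hC1, u0, hpair⟩ := Pool.Agent.H357R2.SI.pair_sieve
  obtain ⟨C2, hC2, hsg⟩ := Pool.Agent.H357R2.SI.sum_sg_sq
  refine ⟨4 * (u0 : ℝ) ^ 2 + 16 * C1 * C2, by positivity, ?_⟩
  intro s hs a K k hK
  have hKR : (1 : ℝ) ≤ K := by exact_mod_cast hK
  set u := 2 * 2 ^ K + 1 with hu
  set Q := (Ioc (a - 1) (a - 1 + (u + 1))) with hQ
  have h2K : 2 ≤ 2 ^ K := by
    calc 2 = 2 ^ 1 := by norm_num
      _ ≤ 2 ^ K := Nat.pow_le_pow_right (by norm_num) hK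
  -- reorganise
  have hA : ∑ p ∈ s.filter (fun p => a ≤ p ∧ p ≤ a + 2 * 2 ^ K), (U s p k : ℝ) ≤
      ∑ h ∈ Icc 1 (2 ^ k), ((Q.filter (fun n => n.Prime ∧ (n + h).Prime)).card : ℝ) := by
    have h1 : ∑ p ∈ s.filter (fun p => a ≤ p ∧ p ≤ a + 2 * 2 ^ K), U s p k ≤
        ∑ p ∈ Q.filter Nat.Prime, ∑ h ∈ Icc 1 (2 ^ k), if (p + h).Prime then 1 else 0 := by
      have h2 : ∀ p ∈ s.filter (fun p => a ≤ p ∧ p ≤ a + 2 * 2 ^ K), U s p k ≤
          ∑ h ∈ Icc 1 (2 ^ k), if (p + h).Prime then 1 else 0 := by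
        intro p _
        rw [← card_filter]
        unfold U
        apply card_le_card_of_injOn (fun q => q - p)
        · intro q hq
          rw [mem_coe, mem_filter] at hq
          rw [mem_coe, mem_filter, mem_Icc]
          refine ⟨⟨?_, ?_⟩, ?_⟩
          · show 1 ≤ q - p
            omega
          · show q - p ≤ 2 ^ k
            omega
          · show (p + (q - p)).Prime
            have e : p + (q - p) = q := by omega
            rw [e]; exact hs q hq.1
        · intro q hq q' hq' h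
          rw [mem_coe, mem_filter] at hq hq'
          simp only at h
          omega
      refine (sum_le_sum h2).trans ?_
      apply sum_le_sum_of_subset_of_nonneg
      · intro p hp
        rw [mem_filter] at hp
        rw [mem_filter, hQ, mem_Ioc]
        have := (hs p hp.1).pos
        exact ⟨by omega, hs p hp.1⟩
      · intro _ _ _; exact Nat.zero_le _
    have h3 : ∑ p ∈ Q.filter Nat.Prime, ∑ h ∈ Icc 1 (2 ^ k), (if (p + h).Prime then 1 else 0) =
        ∑ h ∈ Icc 1 (2 ^ k), (Q.filter (fun n => n.Prime ∧ (n + h).Prime)).card := by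
      rw [sum_comm]
      apply sum_congr rfl
      intro h _
      rw [← card_filter, filter_filter]
    rw [h3] at h1
    exact_mod_cast h1
  refine hA.trans ?_
  have hKK : (K : ℝ) ≤ (2 : ℝ) ^ K := by
    have : K < 2 ^ K := Nat.lt_two_pow_self
    exact_mod_cast this.le
  by_cases hu0 : u0 ≤ u + 1
  · have h1 : ∀ h ∈ Icc 1 (2 ^ k), ((Q.filter (fun n => n.Prime ∧ (n + h).Prime)).card : ℝ) ≤
        C1 * ((u + 1 : ℕ) : ℝ) / Real.log ((u + 1 : ℕ) : ℝ) ^ 2 *
          Pool.Agent.H357R2.SI.sg h ^ 2 := by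
      intro h hh
      rw [mem_Icc] at hh
      refine (hpair h (a - 1) (u + 1) (by omega) hu0).trans (le_of_eq ?_)
      ring
    refine (sum_le_sum h1).trans ?_
    rw [← mul_sum]
    have hlog : (K : ℝ) / 2 ≤ Real.log ((u + 1 : ℕ) : ℝ) := by
      have e1 : Real.log ((2 : ℝ) ^ K) ≤ Real.log ((u + 1 : ℕ) : ℝ) := by
        apply Real.log_le_log (by positivity)
        have : 2 ^ K ≤ u + 1 := by omega
        exact_mod_cast this
      rw [Real.log_pow] at e1
      have hlog2 : (1 : ℝ) / 2 < Real.log 2 := by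
        have := Real.log_two_gt_d9
        linarith
      nlinarith
    have hlogpos : 0 < Real.log ((u + 1 : ℕ) : ℝ) := by linarith
    have hsq : (K : ℝ) ^ 2 / 4 ≤ Real.log ((u + 1 : ℕ) : ℝ) ^ 2 := by nlinarith
    have hu1 : ((u + 1 : ℕ) : ℝ) ≤ 4 * 2 ^ K := by
      have : u + 1 ≤ 4 * 2 ^ K := by omega
      exact_mod_cast this
    have hs2 := hsg (2 ^ k)
    have hs2' : ∑ h ∈ Icc 1 (2 ^ k), Pool.Agent.H357R2.SI.sg h ^ 2 ≤ C2 * 2 ^ k := by
      exact_mod_cast hs2
    have hfac : C1 * ((u + 1 : ℕ) : ℝ) / Real.log ((u + 1 : ℕ) : ℝ) ^ 2 ≤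
        C1 * (4 * 2 ^ K) / ((K : ℝ) ^ 2 / 4) := by
      apply div_le_div₀ (by positivity) _ (by positivity) hsq
      gcongr
    calc C1 * ((u + 1 : ℕ) : ℝ) / Real.log ((u + 1 : ℕ) : ℝ) ^ 2 *
          ∑ h ∈ Icc 1 (2 ^ k), Pool.Agent.H357R2.SI.sg h ^ 2
        ≤ (C1 * (4 * 2 ^ K) / ((K : ℝ) ^ 2 / 4)) * (C2 * 2 ^ k) := by
          apply mul_le_mul hfac hs2' (sum_nonneg fun _ _ => by positivity) (by positivity)
      _ = (16 * C1 * C2) * 2 ^ k * 2 ^ K / (K : ℝ) ^ 2 := by
          field_simp; ring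
      _ ≤ (4 * (u0 : ℝ) ^ 2 + 16 * C1 * C2) * 2 ^ k * 2 ^ K / (K : ℝ) ^ 2 := by
          gcongr
          have : (0 : ℝ) ≤ 4 * (u0 : ℝ) ^ 2 := by positivity
          linarith
  · push Not at hu0
    have h1 : ∀ h ∈ Icc 1 (2 ^ k), ((Q.filter (fun n => n.Prime ∧ (n + h).Prime)).card : ℝ) ≤
        4 * 2 ^ K := by
      intro h _
      have h2 : (Q.filter (fun n => n.Prime ∧ (n + h).Prime)).card ≤ u + 1 := by
        refine (card_filter_le _ _).trans ?_
        rw [hQ, Nat.card_Ioc]; omega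
      have h3 : u + 1 ≤ 4 * 2 ^ K := by omega
      exact_mod_cast h2.trans h3
    refine (sum_le_sum h1).trans ?_
    rw [sum_const, Nat.card_Icc, nsmul_eq_mul]
    have hK0 : (K : ℝ) ≤ u0 := by
      have : K < 2 ^ K := Nat.lt_two_pow_self
      have h5 : K ≤ u0 := by omega
      exact_mod_cast h5
    have e : ((2 ^ k + 1 - 1 : ℕ) : ℝ) = 2 ^ k := by
      rw [Nat.add_sub_cancel]; push_cast; ring
    rw [e, le_div_iff₀ (by positivity)]
    have h6 : (K : ℝ) ^ 2 ≤ (u0 : ℝ) ^ 2 := by gcongr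
    calc (2 : ℝ) ^ k * (4 * 2 ^ K) * (K : ℝ) ^ 2 ≤ (2 : ℝ) ^ k * (4 * 2 ^ K) * (u0 : ℝ) ^ 2 := by
          gcongr
      _ = (4 * (u0 : ℝ) ^ 2) * 2 ^ k * 2 ^ K := by ring
      _ ≤ (4 * (u0 : ℝ) ^ 2 + 16 * C1 * C2) * 2 ^ k * 2 ^ K := by
          gcongr
          have : (0 : ℝ) ≤ 16 * C1 * C2 := by positivity
          linarith

/-- low scales -/
noncomputable def G (s : Finset ℕ) (r : ℕ) (p K : ℕ) : ℝ :=
  ∑ k ∈ (Ico 1 K).filter (fun k => r * k < K), (U s p k : ℝ) / 2 ^ k

lemma G_mono {s : Finset ℕ} {r p K K' : ℕ} (h : K ≤ K') : G s r p K ≤ G s r p K' := by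
  unfold G
  apply sum_le_sum_of_subset_of_nonneg
  · intro k hk
    rw [mem_filter, mem_Ico] at hk ⊢
    omega
  · intro _ _ _; positivity

lemma claim {C : ℝ} (hC : 0 < C) {s : Finset ℕ}
    (hpair : ∀ a K k : ℕ, 1 ≤ K →
      ∑ p ∈ s.filter (fun p => a ≤ p ∧ p ≤ a + 2 * 2 ^ K), (U s p k : ℝ) ≤
      C * 2 ^ k * 2 ^ K / (K : ℝ) ^ 2) {ε : ℝ} (hε : 0 < ε) {r : ℕ} (hr : 1 ≤ r) (K : ℕ → ℕ) :
    ∀ n : ℕ, ∀ T : Finset ℕ, T.card = n → T ⊆ s →
      (∀ p ∈ T, 1 ≤ K p ∧ ε * 2 ^ K p / K p ≤ U s p (K p)) →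
      ∑ p ∈ T, G s r p (K p) ≤ C / (r * ε) *
        ((s.filter (fun q => ∃ p ∈ T, p < q ∧ q ≤ p + 2 ^ K p)).card : ℝ) := by
  classical
  intro n
  induction n using Nat.strong_induction_on with
  | _ n ih =>
  intro T hT hTs hK
  rcases T.eq_empty_or_nonempty with rfl | hne
  · simp
  obtain ⟨p0, hp0, hmax⟩ := exists_max_image T K hne
  set T1 := T.filter (fun p => p ≤ p0 + 2 ^ K p0 ∧ p0 ≤ p + 2 ^ K p) with hT1
  set T2 := T.filter (fun p => ¬ (p ≤ p0 + 2 ^ K p0 ∧ p0 ≤ p + 2 ^ K p)) with hT2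
  have hsplit : ∑ p ∈ T, G s r p (K p) = ∑ p ∈ T1, G s r p (K p) + ∑ p ∈ T2, G s r p (K p) := by
    rw [hT1, hT2, sum_filter_add_sum_filter_not]
  have hpos : 0 < 2 ^ K p0 := by positivity
  have hT2card : T2.card < n := by
    rw [← hT]
    apply card_lt_card
    rw [ssubset_iff_of_subset (filter_subset _ _)]
    refine ⟨p0, hp0, ?_⟩
    intro h
    exact (mem_filter.1 h).2 ⟨by omega, by omega⟩
  have hih := ih T2.card hT2card T2 rfl ((filter_subset _ _).trans hTs)
    (fun p hp => hK p (mem_filter.1 hp).1)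
  have hr0 : (0 : ℝ) < r := by exact_mod_cast hr
  obtain ⟨hK1, hKU⟩ := hK p0 hp0
  set K0 := K p0 with hK0
  have hK0R : (0 : ℝ) < K0 := by exact_mod_cast hK1
  have hfirst : ∑ p ∈ T1, G s r p (K p) ≤ C / (r * ε) * (U s p0 K0 : ℝ) := by
    have h1 : ∑ p ∈ T1, G s r p (K p) ≤
        ∑ p ∈ s.filter (fun p => p0 - 2 ^ K0 ≤ p ∧ p ≤ p0 - 2 ^ K0 + 2 * 2 ^ K0), G s r p K0 := by
      refine (sum_le_sum (g := fun p => G s r p K0) fun p hp => G_mono (hmax p (mem_filter.1 hp).1)).trans ?_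
      apply sum_le_sum_of_subset_of_nonneg
      · intro p hp
        rw [mem_filter] at hp
        rw [mem_filter]
        have h3 : 2 ^ K p ≤ 2 ^ K0 := Nat.pow_le_pow_right (by norm_num) (hmax p hp.1)
        have h4 : 2 ^ K p0 = 2 ^ K0 := rfl
        refine ⟨hTs hp.1, by omega, by omega⟩
      · intro _ _ _
        unfold G
        exact sum_nonneg fun _ _ => by positivity
    refine h1.trans ?_
    unfold G
    rw [sum_comm]
    have h2 : ∀ k ∈ (Ico 1 K0).filter (fun k => r * k < K0),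
        ∑ p ∈ s.filter (fun p => p0 - 2 ^ K0 ≤ p ∧ p ≤ p0 - 2 ^ K0 + 2 * 2 ^ K0),
          (U s p k : ℝ) / 2 ^ k ≤ C * 2 ^ K0 / (K0 : ℝ) ^ 2 := by
      intro k _
      rw [← sum_div, div_le_iff₀ (by positivity)]
      refine (hpair (p0 - 2 ^ K0) K0 k hK1).trans (le_of_eq ?_)
      ring
    refine (sum_le_card_nsmul _ _ _ h2).trans ?_
    rw [nsmul_eq_mul]
    have h3 : ((((Ico 1 K0).filter (fun k => r * k < K0)).card : ℕ) : ℝ) ≤ K0 / r := by
      have h4 : (Ico 1 K0).filter (fun k => r * k < K0) ⊆ Icc 1 (K0 / r) := by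
        intro k hk
        rw [mem_filter, mem_Ico] at hk
        rw [mem_Icc]
        refine ⟨hk.1.1, ?_⟩
        rw [Nat.le_div_iff_mul_le hr, mul_comm]
        exact hk.2.le
      have h5 := card_le_card h4
      rw [Nat.card_Icc, Nat.add_sub_cancel] at h5
      calc ((((Ico 1 K0).filter (fun k => r * k < K0)).card : ℕ) : ℝ) ≤ ((K0 / r : ℕ) : ℝ) := by
            exact_mod_cast h5
        _ ≤ (K0 : ℝ) / r := Nat.cast_div_le
    calc ((((Ico 1 K0).filter (fun k => r * k < K0)).card : ℕ) : ℝ) * (C * 2 ^ K0 / (K0 : ℝ) ^ 2)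
        ≤ (K0 : ℝ) / r * (C * 2 ^ K0 / (K0 : ℝ) ^ 2) := by gcongr
      _ = C / (r * ε) * (ε * 2 ^ K0 / K0) := by field_simp
      _ ≤ C / (r * ε) * (U s p0 K0 : ℝ) := by gcongr
  have hcard : U s p0 K0 + (s.filter (fun q => ∃ p ∈ T2, p < q ∧ q ≤ p + 2 ^ K p)).card ≤
      (s.filter (fun q => ∃ p ∈ T, p < q ∧ q ≤ p + 2 ^ K p)).card := by
    unfold U
    rw [← card_union_of_disjoint]
    · apply card_le_card
      intro q hq
      rw [mem_union, mem_filter, mem_filter] at hq
      rw [mem_filter]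
      rcases hq with hq | hq
      · exact ⟨hq.1, p0, hp0, hq.2⟩
      · obtain ⟨h1, p, hp, h2⟩ := hq
        exact ⟨h1, p, (mem_filter.1 hp).1, h2⟩
    · rw [disjoint_left]
      intro q hq hq'
      rw [mem_filter] at hq hq'
      obtain ⟨h1, p, hp, h2⟩ := hq'
      rw [hT2, mem_filter] at hp
      apply hp.2
      constructor
      · omega
      · omega
  rw [hsplit]
  have hcardR : (U s p0 K0 : ℝ) +
      ((s.filter (fun q => ∃ p ∈ T2, p < q ∧ q ≤ p + 2 ^ K p)).card : ℝ) ≤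
      ((s.filter (fun q => ∃ p ∈ T, p < q ∧ q ≤ p + 2 ^ K p)).card : ℝ) := by exact_mod_cast hcard
  calc ∑ p ∈ T1, G s r p (K p) + ∑ p ∈ T2, G s r p (K p)
      ≤ C / (r * ε) * (U s p0 K0 : ℝ) + C / (r * ε) *
        ((s.filter (fun q => ∃ p ∈ T2, p < q ∧ q ≤ p + 2 ^ K p)).card : ℝ) := add_le_add hfirst hih
    _ = C / (r * ε) * ((U s p0 K0 : ℝ) +
        ((s.filter (fun q => ∃ p ∈ T2, p < q ∧ q ≤ p + 2 ^ K p)).card : ℝ)) := by ring
    _ ≤ _ := by gcongr

lemma aux1 {a b : ℕ} (ha : 1 ≤ a) (hb : 1 ≤ b) : a + b ≤ b * a + 1 := by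
  obtain ⟨c, rfl⟩ := Nat.exists_eq_add_of_le ha
  obtain ⟨d, rfl⟩ := Nat.exists_eq_add_of_le hb
  nlinarith [Nat.zero_le (c * d)]

lemma harm (m : ℕ) (hm : 1 ≤ m) : ∀ n : ℕ, m ≤ n →
    ∑ k ∈ Icc m n, (1 : ℝ) / k ≤ 1 + Real.log (n / m) := by
  intro n hn
  have hmR : (1 : ℝ) ≤ m := by exact_mod_cast hm
  induction n, hn using Nat.le_induction with
  | base =>
    rw [Icc_self, sum_singleton, div_self (by positivity), Real.log_one, add_zero]
    rw [div_le_one (by linarith)]; exact hmR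
  | succ n hn ih =>
    rw [Finset.sum_Icc_succ_top (by omega)]
    have hnR : (0 : ℝ) < n := by
      have : 0 < n := by omega
      exact_mod_cast this
    have h1 := Real.one_sub_inv_le_log_of_pos (show 0 < ((n : ℝ) + 1) / n by positivity)
    have h2 : Real.log (((n + 1 : ℕ) : ℝ) / m) = Real.log (n / m) + Real.log (((n : ℝ) + 1) / n) := by
      rw [← Real.log_mul (by positivity) (by positivity)]
      congr 1
      push_cast
      field_simp
    rw [h2]
    have h3 : 1 - (((n : ℝ) + 1) / n)⁻¹ = 1 / ((n + 1 : ℕ) : ℝ) := by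
      push_cast
      field_simp
      ring
    rw [h3] at h1
    linarith

/-- normalised count -/
noncomputable def Dn (s : Finset ℕ) (p k : ℕ) : ℝ := (U s p k : ℝ) * k / 2 ^ k

lemma layer {D : ℝ} {E : ℕ} (h1 : D ≤ 44) (h2 : 44 / 2 ^ E < D) (hE : 1 ≤ E) :
    D ≤ ∑ e ∈ range E, (if 44 / 2 ^ (e + 1) < D then (44 : ℝ) / 2 ^ e else 0) := by
  classical
  have hex : ∃ e : ℕ, 44 / 2 ^ (e + 1) < D := ⟨E - 1, by rwa [Nat.sub_add_cancel hE]⟩
  set e := Nat.find hex with he
  have hspec := Nat.find_spec hex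
  have hle : e ≤ E - 1 := Nat.find_min' hex (by rwa [Nat.sub_add_cancel hE])
  have hD : D ≤ 44 / 2 ^ e := by
    rcases Nat.eq_zero_or_pos e with h0 | h0
    · rw [h0]; simpa using h1
    · have := Nat.find_min hex (m := e - 1) (by omega)
      rw [not_lt] at this
      rwa [Nat.sub_add_cancel h0] at this
  have hmem : e ∈ range E := mem_range.2 (by omega)
  have h3 : (if 44 / 2 ^ (e + 1) < D then (44 : ℝ) / 2 ^ e else 0) ≤
      ∑ e ∈ range E, (if 44 / 2 ^ (e + 1) < D then (44 : ℝ) / 2 ^ e else 0) := by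
    apply single_le_sum (f := fun e => (if 44 / 2 ^ (e + 1) < D then (44 : ℝ) / 2 ^ e else 0))
    · intro i _
      split_ifs
      · positivity
      · exact le_rfl
    · exact hmem
  rw [if_pos hspec] at h3
  linarith

/-- the contribution of one threshold -/
lemma level {C : ℝ} (hC : 0 < C) {s : Finset ℕ}
    (hpair : ∀ a K k : ℕ, 1 ≤ K →
      ∑ p ∈ s.filter (fun p => a ≤ p ∧ p ≤ a + 2 * 2 ^ K), (U s p k : ℝ) ≤
      C * 2 ^ k * 2 ^ K / (K : ℝ) ^ 2) (L e : ℕ) :
    ∑ p ∈ s, ∑ k ∈ Ico 1 L, (if 44 / 2 ^ (e + 1) < Dn s p k then (44 : ℝ) / 2 ^ e / k else 0) ≤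
      (88 + 2 * C) * (e + 1) / 2 ^ e * s.card := by
  classical
  set ε : ℝ := 44 / 2 ^ (e + 1) with hε
  have hε0 : 0 < ε := by positivity
  have h2ε : (44 : ℝ) / 2 ^ e = 2 * ε := by rw [hε, pow_succ]; field_simp
  set r := 4 ^ e with hr
  have hr1 : 1 ≤ r := Nat.one_le_pow _ _ (by norm_num)
  -- the scales above the threshold
  set W : ℕ → Finset ℕ := fun p => (Ico 1 L).filter (fun k => ε < Dn s p k) with hW
  set T := s.filter (fun p => (W p).Nonempty) with hT
  set K : ℕ → ℕ := fun p => (W p).sup id with hKd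
  have hKmem : ∀ p ∈ T, K p ∈ W p := by
    intro p hp
    have hne := (mem_filter.1 hp).2
    obtain ⟨k, hk, hk'⟩ := exists_mem_eq_sup (W p) hne id
    have : K p = k := hk'
    rw [this]; exact hk
  have hKmax : ∀ p, ∀ k ∈ W p, k ≤ K p := fun p k hk => le_sup (f := id) hk
  have hclaim := claim hC hpair hε0 hr1 K T.card T rfl (filter_subset _ _) (by
    intro p hp
    have h1 := hKmem p hp
    simp only [hW, mem_filter, mem_Ico] at h1
    refine ⟨h1.1.1, ?_⟩
    have h2 := h1.2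
    unfold Dn at h2
    have hKp : (0 : ℝ) < K p := by exact_mod_cast h1.1.1
    rw [div_le_iff₀ hKp]
    rw [lt_div_iff₀ (by positivity)] at h2
    exact h2.le)
  have hclaim2 : ∑ p ∈ T, G s r p (K p) ≤ C / (r * ε) * s.card := by
    refine hclaim.trans ?_
    apply mul_le_mul_of_nonneg_left _ (by positivity)
    exact_mod_cast card_filter_le _ _
  -- per-point bound
  have hpt : ∀ p ∈ s, ∑ k ∈ Ico 1 L,
      (if ε < Dn s p k then (44 : ℝ) / 2 ^ e / k else 0) ≤
      2 * ε * (1 + e * Real.log 4) + (if p ∈ T then 2 * G s r p (K p) else 0) := by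
    intro p hp
    have hlog4 : 0 ≤ Real.log 4 := Real.log_nonneg (by norm_num)
    rw [← sum_filter]
    by_cases hpT : p ∈ T
    · rw [if_pos hpT]
      have hm := hKmem p hpT
      simp only [hW, mem_filter, mem_Ico] at hm
      have hK1 : 1 ≤ K p := hm.1.1
      rw [h2ε, ← sum_filter_add_sum_filter_not _ (fun k => r * k < K p), add_comm]
      apply add_le_add
      · -- high scales
        set m := (K p + r - 1) / r with hmdef
        have hm1 : 1 ≤ m := by
          rw [hmdef, Nat.le_div_iff_mul_le hr1]; omega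
        have hmK : m ≤ K p := by
          rw [hmdef]
          apply Nat.div_le_of_le_mul
          have := aux1 hK1 hr1
          omega
        have hsub : ((Ico 1 L).filter (fun k => ε < Dn s p k)).filter (fun k => ¬ r * k < K p) ⊆
            Icc m (K p) := by
          intro k hk
          rw [mem_filter] at hk
          rw [mem_Icc]
          refine ⟨?_, hKmax p k hk.1⟩
          rw [hmdef]
          have := hk.2
          rw [not_lt] at this
          have h4 : (K p + r - 1) / r < k + 1 := by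
            rw [Nat.div_lt_iff_lt_mul hr1, add_mul, one_mul, mul_comm]
            omega
          omega
        have h5 : ∑ k ∈ ((Ico 1 L).filter (fun k => ε < Dn s p k)).filter
            (fun k => ¬ r * k < K p), 2 * ε / (k : ℝ) ≤ ∑ k ∈ Icc m (K p), 2 * ε / (k : ℝ) := by
          apply sum_le_sum_of_subset_of_nonneg hsub
          intro _ _ _; positivity
        refine h5.trans ?_
        have h6 : ∑ k ∈ Icc m (K p), 2 * ε / (k : ℝ) = 2 * ε * ∑ k ∈ Icc m (K p), (1 : ℝ) / k := by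
          rw [mul_sum]
          apply sum_congr rfl
          intro k _; ring
        rw [h6]
        apply mul_le_mul_of_nonneg_left _ (by positivity)
        refine (harm m hm1 (K p) hmK).trans ?_
        have h7 : Real.log ((K p : ℝ) / m) ≤ e * Real.log 4 := by
          have hmR : (0 : ℝ) < m := by exact_mod_cast hm1
          have hKR : (0 : ℝ) < K p := by exact_mod_cast hK1
          rw [← Real.log_pow]
          apply Real.log_le_log (by positivity)
          rw [div_le_iff₀ hmR]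
          have h8 : K p ≤ r * m := by
            rw [hmdef]
            have := Nat.div_add_mod (K p + r - 1) r
            have h9 := Nat.mod_lt (K p + r - 1) hr1
            omega
          have h9 : (K p : ℝ) ≤ ((r * m : ℕ) : ℝ) := by exact_mod_cast h8
          rw [hr] at h9
          push_cast at h9
          exact h9
        linarith
      · -- low scales
        unfold G
        rw [mul_sum]
        have h5 : ∀ k ∈ ((Ico 1 L).filter (fun k => ε < Dn s p k)).filter
            (fun k => r * k < K p), 2 * ε / (k : ℝ) ≤ 2 * ((U s p k : ℝ) / 2 ^ k) := by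
          intro k hk
          rw [mem_filter, mem_filter, mem_Ico] at hk
          have hkR : (0 : ℝ) < k := by exact_mod_cast hk.1.1.1
          have h6 := hk.1.2
          unfold Dn at h6
          have h7 : (U s p k : ℝ) * k / 2 ^ k = (U s p k : ℝ) / 2 ^ k * k := by ring
          rw [h7] at h6
          rw [div_le_iff₀ hkR]
          nlinarith
        refine (sum_le_sum h5).trans ?_
        apply sum_le_sum_of_subset_of_nonneg
        · intro k hk
          have hk' := hKmax p k (mem_filter.1 hk).1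
          rw [mem_filter, mem_filter, mem_Ico] at hk
          rw [mem_filter, mem_Ico]
          refine ⟨⟨hk.1.1.1, ?_⟩, hk.2⟩
          have : k ≤ r * k := Nat.le_mul_of_pos_left _ hr1
          omega
        · intro _ _ _; positivity
    · rw [if_neg hpT, add_zero]
      have hempty : (Ico 1 L).filter (fun k => ε < Dn s p k) = ∅ := by
        by_contra hcon
        apply hpT
        rw [hT, mem_filter]
        exact ⟨hp, nonempty_iff_ne_empty.2 hcon⟩
      rw [hempty, sum_empty]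
      positivity
  refine (sum_le_sum hpt).trans ?_
  rw [sum_add_distrib, sum_const, nsmul_eq_mul, ← sum_filter]
  have hfil : s.filter (fun p => p ∈ T) = T := by
    ext p
    rw [mem_filter]
    exact ⟨fun h => h.2, fun h => ⟨(mem_filter.1 h).1, h⟩⟩
  rw [hfil, ← mul_sum]
  have hlog : Real.log 4 ≤ 2 := by
    have h1 : Real.log 4 = 2 * Real.log 2 := by
      rw [show (4 : ℝ) = 2 ^ 2 by norm_num, Real.log_pow]; norm_num
    have := Real.log_two_lt_d9
    linarith
  have hA : (s.card : ℝ) * (2 * ε * (1 + e * Real.log 4)) ≤ 88 * (e + 1) / 2 ^ e * s.card := by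
    rw [← h2ε]
    have : (44 : ℝ) / 2 ^ e * (1 + e * Real.log 4) ≤ 88 * (e + 1) / 2 ^ e := by
      have h8 : (1 : ℝ) + e * Real.log 4 ≤ 2 * (e + 1) := by
        have : (e : ℝ) * Real.log 4 ≤ e * 2 := by gcongr
        linarith
      calc (44 : ℝ) / 2 ^ e * (1 + e * Real.log 4) ≤ 44 / 2 ^ e * (2 * (e + 1)) := by gcongr
        _ = 88 * (e + 1) / 2 ^ e := by ring
    rw [mul_comm]
    gcongr
  have hB : 2 * ∑ p ∈ T, G s r p (K p) ≤ 2 * C * (e + 1) / 2 ^ e * s.card := by
    have h8 : C / (r * ε) ≤ C * (e + 1) / 2 ^ e := by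
      have h9 : (r : ℝ) * ε = 22 * 2 ^ e := by
        rw [hr, hε]
        push_cast
        have : (4 : ℝ) ^ e = 2 ^ e * 2 ^ e := by
          rw [← mul_pow]; norm_num
        rw [this, pow_succ]
        field_simp
        ring
      rw [h9]
      rw [div_le_div_iff₀ (by positivity) (by positivity)]
      have he0 : (0 : ℝ) ≤ e := by positivity
      have h2e : (0 : ℝ) < 2 ^ e := by positivity
      have : C * 2 ^ e ≤ C * ((e + 1) * (22 * 2 ^ e)) := by
        apply mul_le_mul_of_nonneg_left _ hC.le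
        nlinarith
      linarith
    calc 2 * ∑ p ∈ T, G s r p (K p) ≤ 2 * (C / (r * ε) * s.card) := by gcongr
      _ ≤ 2 * ((C * (e + 1) / 2 ^ e) * s.card) := by gcongr
      _ = _ := by ring
  calc (s.card : ℝ) * (2 * ε * (1 + e * Real.log 4)) + 2 * ∑ p ∈ T, G s r p (K p)
      ≤ 88 * (e + 1) / 2 ^ e * s.card + 2 * C * (e + 1) / 2 ^ e * s.card := add_le_add hA hB
    _ = _ := by ring

lemma sum_e (E : ℕ) : ∑ e ∈ range E, ((e : ℝ) + 1) / 2 ^ e ≤ 4 := by
  have h : ∀ E : ℕ, ∑ e ∈ range E, ((e : ℝ) + 1) / 2 ^ e = 4 - (E + 2) * 2 / 2 ^ E := by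
    intro E
    induction E with
    | zero => norm_num
    | succ E ih =>
      rw [sum_range_succ, ih]
      push_cast
      rw [pow_succ]
      field_simp
      ring
  rw [h]
  have : (0 : ℝ) ≤ ((E : ℝ) + 2) * 2 / 2 ^ E := by positivity
  linarith

theorem main : ∃ c : ℝ, ∀ s : Finset ℕ, s.Nonempty → (∀ p ∈ s, Nat.Prime p) →
      (∑ p ∈ s, ∑ q ∈ s.filter (fun q => p < q), (1 : ℝ) / ((q : ℝ) - (p : ℝ)))
        < c * (s.card : ℝ) := by
  classical
  obtain ⟨C, hC, hpair⟩ := pair_total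
  refine ⟨2 + 2 * (4 * (88 + 2 * C)) + 1, ?_⟩
  intro s hne hs
  have hcard : (0 : ℝ) < s.card := by exact_mod_cast card_pos.2 hne
  obtain ⟨L, hL⟩ : ∃ L : ℕ, ∀ q ∈ s, q < 2 ^ L := by
    refine ⟨s.sup id, fun q hq => ?_⟩
    have h1 : q ≤ s.sup id := le_sup (f := id) hq
    exact lt_of_lt_of_le Nat.lt_two_pow_self (Nat.pow_le_pow_right (by norm_num) h1)
  -- dyadic decomposition
  have h1 : ∀ p ∈ s, ∑ q ∈ s.filter (fun q => p < q), (1 : ℝ) / ((q : ℝ) - (p : ℝ)) ≤
      2 * ∑ k ∈ range (L + 1), (U s p k : ℝ) / 2 ^ k := by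
    intro p _
    have h2 : ∀ q ∈ s.filter (fun q => p < q), (1 : ℝ) / ((q : ℝ) - (p : ℝ)) ≤
        2 * ∑ k ∈ range (L + 1), (if q ≤ p + 2 ^ k then (1 : ℝ) / 2 ^ k else 0) := by
      intro q hq
      rw [mem_filter] at hq
      set d := q - p with hd
      have hd1 : 1 ≤ d := by omega
      have hdR : (q : ℝ) - p = d := by rw [hd, Nat.cast_sub hq.2.le]
      rw [hdR]
      set k := Nat.clog 2 d with hk
      have hk1 : d ≤ 2 ^ k := Nat.le_pow_clog (by norm_num) d
      have hk2 : 2 ^ k < 2 * d ∨ d = 1 := by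
        rcases Nat.lt_or_ge 1 d with h | h
        · left
          have h3 := Nat.pow_pred_clog_lt_self (b := 2) (by norm_num) h
          have h4 : 0 < k := Nat.clog_pos (by norm_num) h
          have h5 : 2 ^ k = 2 * 2 ^ (k - 1) := by
            rw [← pow_succ']; congr 1; omega
          have h6 : k.pred = k - 1 := rfl
          rw [← hk, h6] at h3
          omega
        · right; omega
      have hkL : k < L + 1 := by
        have h3 : d < 2 ^ L := lt_of_le_of_lt (by omega) (hL q hq.1)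
        have h4 : k ≤ L := by
          rw [hk]
          exact (Nat.clog_le_iff_le_pow (by norm_num)).2 h3.le
        omega
      have h5 : (if q ≤ p + 2 ^ k then (1 : ℝ) / 2 ^ k else 0) ≤
          ∑ k ∈ range (L + 1), (if q ≤ p + 2 ^ k then (1 : ℝ) / 2 ^ k else 0) := by
        apply single_le_sum (f := fun k => (if q ≤ p + 2 ^ k then (1 : ℝ) / 2 ^ k else 0))
        · intro i _
          split_ifs
          · positivity
          · exact le_rfl
        · exact mem_range.2 hkL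
      rw [if_pos (by omega)] at h5
      have hdR0 : (0 : ℝ) < d := by exact_mod_cast hd1
      have h6 : (1 : ℝ) / d ≤ 2 * (1 / 2 ^ k) := by
        rcases hk2 with h | h
        · have h7 : ((2 ^ k : ℕ) : ℝ) ≤ ((2 * d : ℕ) : ℝ) := by exact_mod_cast h.le
          push_cast at h7
          rw [mul_one_div, div_le_div_iff₀ hdR0 (by positivity)]
          linarith
        · have hk0 : k = 0 := by rw [hk, h]; simp
          rw [hk0, h]; norm_num
      linarith
    refine (sum_le_sum h2).trans ?_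
    rw [← mul_sum]
    apply mul_le_mul_of_nonneg_left _ (by norm_num)
    rw [sum_comm]
    apply sum_le_sum
    intro k _
    rw [← sum_filter, sum_const, nsmul_eq_mul, filter_filter]
    unfold U
    rw [mul_one_div]
  refine lt_of_le_of_lt (sum_le_sum h1) ?_
  rw [← mul_sum]
  -- split off k = 0
  have h2 : ∀ p ∈ s, ∑ k ∈ range (L + 1), (U s p k : ℝ) / 2 ^ k ≤
      1 + ∑ k ∈ Ico 1 (L + 1), (U s p k : ℝ) / 2 ^ k := by
    intro p _
    rw [range_eq_Ico, ← sum_Ioo_add_eq_sum_Ico (by omega : 0 < L + 1)]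
    have h3 : Ioo 0 (L + 1) = Ico 1 (L + 1) := by
      ext k; rw [mem_Ioo, mem_Ico]; omega
    rw [h3]
    have h4 : (U s p 0 : ℝ) / 2 ^ 0 ≤ 1 := by
      have : U s p 0 ≤ 1 := by
        unfold U
        have h5 : s.filter (fun q => p < q ∧ q ≤ p + 2 ^ 0) ⊆ {p + 1} := by
          intro q hq
          rw [mem_filter] at hq
          rw [mem_singleton]
          have := hq.2
          omega
        exact (card_le_card h5).trans (by simp)
      rw [pow_zero, div_one]
      exact_mod_cast this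
    linarith
  have h3 : ∑ p ∈ s, ∑ k ∈ range (L + 1), (U s p k : ℝ) / 2 ^ k ≤
      s.card + ∑ p ∈ s, ∑ k ∈ Ico 1 (L + 1), (U s p k : ℝ) / 2 ^ k := by
    refine (sum_le_sum h2).trans (le_of_eq ?_)
    rw [sum_add_distrib, sum_const, nsmul_eq_mul, mul_one]
  -- layer cake
  set E := L + 7 with hE
  have h4 : ∀ p ∈ s, ∀ k ∈ Ico 1 (L + 1), (U s p k : ℝ) / 2 ^ k ≤
      ∑ e ∈ range E, (if 44 / 2 ^ (e + 1) < Dn s p k then (44 : ℝ) / 2 ^ e / k else 0) := by
    intro p _ k hk
    rw [mem_Ico] at hk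
    have hkR : (0 : ℝ) < k := by exact_mod_cast hk.1
    rcases Nat.eq_zero_or_pos (U s p k) with h0 | h0
    · rw [h0]
      simp only [Nat.cast_zero, zero_div]
      apply sum_nonneg
      intro e _
      split_ifs
      · positivity
      · exact le_rfl
    · have hD1 : Dn s p k ≤ 44 := by
        unfold Dn
        have := U_bt hs p k hk.1
        rw [le_div_iff₀ hkR] at this
        rw [div_le_iff₀ (by positivity)]
        exact this
      have hD2 : 44 / 2 ^ E < Dn s p k := by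
        unfold Dn
        have hU : (1 : ℝ) ≤ U s p k := by exact_mod_cast h0
        have hk1 : (1 : ℝ) ≤ k := by exact_mod_cast hk.1
        have h5 : (1 : ℝ) / 2 ^ L ≤ (U s p k : ℝ) * k / 2 ^ k := by
          apply div_le_div₀ (by positivity) (by nlinarith) (by positivity)
          exact pow_le_pow_right₀ (by norm_num) (by omega)
        refine lt_of_lt_of_le ?_ h5
        rw [hE, pow_add, div_lt_div_iff₀ (by positivity) (by positivity)]
        have : (0 : ℝ) < 2 ^ L := by positivity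
        nlinarith
      have h5 := layer hD1 hD2 (by omega)
      have h6 : (U s p k : ℝ) / 2 ^ k = Dn s p k / k := by
        unfold Dn; field_simp
      rw [h6, div_le_iff₀ hkR, sum_mul]
      refine h5.trans (sum_le_sum fun e _ => ?_)
      split_ifs
      · apply le_of_eq; field_simp
      · simp
  have h5 : ∑ p ∈ s, ∑ k ∈ Ico 1 (L + 1), (U s p k : ℝ) / 2 ^ k ≤
      ∑ e ∈ range E, (88 + 2 * C) * (e + 1) / 2 ^ e * s.card := by
    calc ∑ p ∈ s, ∑ k ∈ Ico 1 (L + 1), (U s p k : ℝ) / 2 ^ k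
        ≤ ∑ p ∈ s, ∑ k ∈ Ico 1 (L + 1), ∑ e ∈ range E,
          (if 44 / 2 ^ (e + 1) < Dn s p k then (44 : ℝ) / 2 ^ e / k else 0) :=
          sum_le_sum fun p hp => sum_le_sum fun k hk => h4 p hp k hk
      _ = ∑ p ∈ s, ∑ e ∈ range E, ∑ k ∈ Ico 1 (L + 1),
          (if 44 / 2 ^ (e + 1) < Dn s p k then (44 : ℝ) / 2 ^ e / k else 0) :=
          sum_congr rfl fun p _ => sum_comm
      _ = ∑ e ∈ range E, ∑ p ∈ s, ∑ k ∈ Ico 1 (L + 1),
          (if 44 / 2 ^ (e + 1) < Dn s p k then (44 : ℝ) / 2 ^ e / k else 0) := by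
          rw [sum_comm]
      _ ≤ _ := sum_le_sum fun e _ => level hC (hpair s hs) (L + 1) e
  have h6 : ∑ e ∈ range E, (88 + 2 * C) * (e + 1) / 2 ^ e * (s.card : ℝ) ≤
      4 * (88 + 2 * C) * s.card := by
    have h7 : ∑ e ∈ range E, (88 + 2 * C) * ((e : ℝ) + 1) / 2 ^ e * (s.card : ℝ) =
        ((88 + 2 * C) * s.card) * ∑ e ∈ range E, ((e : ℝ) + 1) / 2 ^ e := by
      rw [mul_sum]
      apply sum_congr rfl
      intro e _; ring
    rw [h7]
    have := sum_e E
    calc ((88 + 2 * C) * s.card) * ∑ e ∈ range E, ((e : ℝ) + 1) / 2 ^ e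
        ≤ ((88 + 2 * C) * s.card) * 4 := by gcongr
      _ = _ := by ring
  have h7 : 2 * ∑ p ∈ s, ∑ k ∈ range (L + 1), (U s p k : ℝ) / 2 ^ k ≤
      (2 + 2 * (4 * (88 + 2 * C))) * s.card := by
    nlinarith
  nlinarith

end Pool.Agent.V11294.RD
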